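import Mathlib

/-!
# Polarization of powers and the classes of Lagrangian type

`V` is a subspace of a commutative real algebra `A`, `L : A → ℝ` a linear form, `B` a nondegenerate symmetric bilinear
form on `V` with `L (v ^ (2 n)) = c B(v, v) ^ n` (Fujiki relation).
-/

namespace Pool.Agent.Lib.P26dde3

open Finset Polynomial

variable {A : Type*} [CommRing A] [Algebra ℝ A]

theorem expand (L : A →ₗ[ℝ] ℝ) (v x m : A) (N : ℕ) (t : ℝ) :
    L ((v + t • x) ^ N * m) = ∑ j ∈ range (N + 1), t ^ j * ((N.choose j : ℝ) *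
      L (v ^ (N - j) * x ^ j * m)) := by
  rw [add_comm v, add_pow, sum_mul, map_sum]
  refine sum_congr rfl fun j _ => ?_
  have h : (t • x) ^ j * v ^ (N - j) * (N.choose j : A) * m =
      (t ^ j * (N.choose j : ℝ)) • (v ^ (N - j) * x ^ j * m) := by
    rw [_root_.smul_pow, Algebra.smul_def, Algebra.smul_def, map_mul, map_natCast]
    ring
  rw [h, map_smul, smul_eq_mul]
  ring

/-- comparison of the coefficients -/
theorem coef (L : A →ₗ[ℝ] ℝ) (v x m : A) (N : ℕ) (P : ℝ[X])
    (h : ∀ t : ℝ, L ((v + t • x) ^ N * m) = P.eval t) {j : ℕ} (hj : j ≤ N) :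
    (N.choose j : ℝ) * L (v ^ (N - j) * x ^ j * m) = P.coeff j := by
  have h1 : P = ∑ i ∈ range (N + 1), monomial i ((N.choose i : ℝ) *
      L (v ^ (N - i) * x ^ i * m)) := by
    refine Polynomial.funext fun t => ?_
    rw [← h t, expand, eval_finsetSum]
    refine sum_congr rfl fun i _ => ?_
    rw [eval_monomial]
    ring
  rw [h1, finsetSum_coeff, sum_eq_single j]
  · rw [coeff_monomial, if_pos rfl]
  · intro i _ hi
    rw [coeff_monomial, if_neg hi]
  · intro hi
    exact absurd (mem_range.2 (Nat.lt_succ_of_le hj)) hi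

/-- polarization -/
theorem pol (V : Submodule ℝ A) (F : A →ₗ[ℝ] ℝ) (n : ℕ) (h : ∀ v ∈ V, F (v ^ n) = 0) :
    ∀ w ∈ V ^ n, F w = 0 := by
  have key : ∀ k, k ≤ n → ∀ w ∈ V ^ k, ∀ v ∈ V, F (v ^ (n - k) * w) = 0 := by
    intro k
    induction k with
    | zero =>
      intro _ w hw v hv
      rw [pow_zero, Submodule.mem_one] at hw
      obtain ⟨r, rfl⟩ := hw
      rw [Nat.sub_zero, mul_comm, ← Algebra.smul_def, map_smul, h v hv, smul_zero]
    | succ k ih =>
      intro hk w hw v hv
      rw [pow_succ] at hw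
      refine Submodule.mul_induction_on hw (fun m hm x hx => ?_) (fun a b ha hb => ?_)
      · have h1 : ∀ t : ℝ, F ((v + t • x) ^ (n - k) * m) = (0 : ℝ[X]).eval t := by
          intro t
          rw [eval_zero]
          exact ih (by omega) m hm _ (V.add_mem hv (V.smul_mem t hx))
        have h2 := coef F v x m (n - k) 0 h1 (j := 1) (by omega)
        rw [coeff_zero, Nat.choose_one_right, pow_one] at h2
        have h3 : ((n - k : ℕ) : ℝ) ≠ 0 := by
          have : n - k ≠ 0 := by omega
          exact_mod_cast this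
        have h4 := (mul_eq_zero.1 h2).resolve_left h3
        have h5 : n - (k + 1) = n - k - 1 := by omega
        rw [h5]
        have h6 : v ^ (n - k - 1) * (m * x) = v ^ (n - k - 1) * x * m := by ring
        rw [h6, h4]
      · rw [mul_add, map_add, ha, hb, add_zero]
  intro w hw
  have h1 := key n le_rfl w hw 0 V.zero_mem
  rwa [Nat.sub_self, pow_zero, one_mul] at h1

/-! ### the Fujiki relation -/

section
variable {V : Submodule ℝ A} {B : LinearMap.BilinForm ℝ V} (hs : B.IsSymm)

include hs in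
theorem sy (v w : V) : B v w = B w v := hs.eq v w

include hs in
theorem bil_add (v x : V) (t : ℝ) :
    B (v + t • x) (v + t • x) = B v v + 2 * t * B v x + t ^ 2 * B x x := by
  have h : B x v = B v x := hs.eq x v
  simp only [map_add, map_smul, LinearMap.add_apply, LinearMap.smul_apply, smul_eq_mul, h]
  ring

/-- the polynomial `B(v + t x, v + t x)` -/
noncomputable def qpol (B : LinearMap.BilinForm ℝ V) (v x : V) : ℝ[X] :=
  C (B v v) + C (2 * B v x) * X + C (B x x) * X ^ 2

include hs in
theorem qpol_eval (v x : V) (t : ℝ) : (qpol B v x).eval t = B (v + t • x) (v + t • x) := by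
  rw [bil_add hs]
  unfold qpol
  simp only [eval_add, eval_mul, eval_C, eval_X, eval_pow]
  ring

theorem qpol_coeff_one (v x : V) (N : ℕ) :
    ((qpol B v x) ^ N).coeff 1 = N * B v v ^ (N - 1) * (2 * B v x) := by
  have h1 : ((qpol B v x) ^ N).coeff 1 = (derivative ((qpol B v x) ^ N)).eval 0 := by
    rw [← coeff_zero_eq_eval_zero, coeff_derivative]
    simp
  rw [h1, derivative_pow]
  unfold qpol
  simp

theorem qpol_coeff_zero (v x : V) (N : ℕ) :
    ((qpol B v x) ^ N).coeff 0 = B v v ^ N := by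
  rw [coeff_zero_eq_eval_zero, eval_pow]
  unfold qpol
  simp

variable (L : A →ₗ[ℝ] ℝ) {c : ℝ} {N : ℕ}

include hs in
theorem fuj1 (h : ∀ v : V, L ((v : A) ^ (2 * (N + 1))) = c * B v v ^ (N + 1)) (v x : V) :
    L ((v : A) ^ (2 * N + 1) * x) = c * B v v ^ N * B v x := by
  have h1 := coef L (v : A) (x : A) 1 (2 * (N + 1)) (C c * (qpol B v x) ^ (N + 1)) (fun t => by
    rw [mul_one, eval_mul, eval_pow, eval_C, qpol_eval hs, ← h (v + t • x)]
    rfl) (j := 1) (by omega)
  rw [coeff_C_mul, qpol_coeff_one, Nat.choose_one_right, pow_one, mul_one] at h1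
  have h2 : 2 * (N + 1) - 1 = 2 * N + 1 := by omega
  rw [h2] at h1
  push_cast at h1
  have h3 : (2 * ((N : ℝ) + 1)) ≠ 0 := by positivity
  refine mul_left_cancel₀ h3 ?_
  rw [h1]
  ring

include hs in
theorem fuj2 (h : ∀ v : V, L ((v : A) ^ (2 * (N + 1))) = c * B v v ^ (N + 1)) (v x y : V) :
    (2 * N + 1) * L ((v : A) ^ (2 * N) * y * x) =
      c * (B v v ^ N * B y x + 2 * N * B v v ^ (N - 1) * (B v y * B v x)) := by
  have h1 := coef L (v : A) (y : A) (x : A) (2 * N + 1)
    (C c * ((qpol B v y) ^ N * (C (B v x) + C (B y x) * X))) (fun t => by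
    have h2 := fuj1 hs L h (v + t • y) x
    have h3 : ((v + t • y : V) : A) = (v : A) + t • (y : A) := rfl
    rw [h3] at h2
    rw [h2, ← qpol_eval hs]
    simp only [eval_add, eval_mul, eval_C, eval_X, eval_pow, map_add, map_smul,
      LinearMap.add_apply, LinearMap.smul_apply, smul_eq_mul]
    ring) (j := 1) (by omega)
  rw [Nat.choose_one_right, pow_one, Nat.add_sub_cancel] at h1
  push_cast at h1
  rw [h1, coeff_C_mul, mul_add, ← mul_assoc (_ ^ N), coeff_add, coeff_mul_C, coeff_mul_X,
    coeff_mul_C, qpol_coeff_one, qpol_coeff_zero]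
  ring

end

/-! ### the dual class -/

section
variable {V : Submodule ℝ A} {B : LinearMap.BilinForm ℝ V} (hs : B.IsSymm)
  (hn : B.Nondegenerate) {ι : Type*} [Fintype ι] [DecidableEq ι] (f : Module.Basis ι ℝ V)

/-- the class dual to `B` -/
noncomputable def qd : A := ∑ i, (f i : A) * (B.dualBasis hn f i : A)

theorem exp_basis (v : V) : v = ∑ i, B (B.dualBasis hn f i) v • f i := by
  refine f.ext_elem fun i => ?_
  have h1 : ∀ w : V, f.repr w i = B (B.dualBasis hn f i) w := by
    intro w
    have h2 : f.coord i = B (B.dualBasis hn f i) := by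
      refine f.ext fun j => ?_
      rw [Module.Basis.coord_apply, Module.Basis.repr_self, Finsupp.single_apply,
        LinearMap.BilinForm.apply_dualBasis_left]
    rw [← h2, Module.Basis.coord_apply]
  rw [map_sum, Finsupp.finsetSum_apply, sum_eq_single i]
  · rw [map_smul, Finsupp.smul_apply, Module.Basis.repr_self, Finsupp.single_eq_same, smul_eq_mul,
      mul_one, h1]
  · intro j _ hj
    rw [map_smul, Finsupp.smul_apply, Module.Basis.repr_self, Finsupp.single_eq_of_ne hj.symm,
      smul_zero]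
  · intro h
    exact absurd (mem_univ i) h

theorem sum_one : ∑ i, B (B.dualBasis hn f i) (f i) = Module.finrank ℝ V := by
  rw [Module.finrank_eq_card_basis f]
  simp [LinearMap.BilinForm.apply_dualBasis_left]

include hs in
theorem sum_two (v w : V) : ∑ i, B w (f i) * B v (B.dualBasis hn f i) = B w v := by
  conv_rhs => rw [exp_basis hn f v]
  rw [map_sum]
  refine sum_congr rfl fun i _ => ?_
  rw [map_smul, smul_eq_mul, sy hs v]
  ring

include hs in
/-- multiplication by the dual class -/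
theorem quad (L : A →ₗ[ℝ] ℝ) {c : ℝ} {N : ℕ}
    (h : ∀ v : V, L ((v : A) ^ (2 * (N + 1))) = c * B v v ^ (N + 1)) (v : V) :
    (2 * N + 1) * L ((v : A) ^ (2 * N) * qd hn f) =
      c * ((Module.finrank ℝ V + 2 * N) * B v v ^ N) := by
  have h1 : L ((v : A) ^ (2 * N) * qd hn f) =
      ∑ i, L ((v : A) ^ (2 * N) * (B.dualBasis hn f i : A) * (f i : A)) := by
    unfold qd
    rw [mul_sum, map_sum]
    refine sum_congr rfl fun i _ => ?_
    congr 1
    ring
  rw [h1, mul_sum, sum_congr rfl (fun i _ => fuj2 hs L h v (f i) (B.dualBasis hn f i)),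
    ← mul_sum, sum_add_distrib, ← mul_sum, ← mul_sum, sum_one]
  have h2 : ∑ i, B v (B.dualBasis hn f i) * B v (f i) = B v v := by
    rw [← sum_two hs hn f v v]
    exact sum_congr rfl fun i _ => mul_comm _ _
  rw [h2]
  rcases N with _ | N
  · simp
  · rw [Nat.add_sub_cancel]
    push_cast
    ring

end

/-! ### the kernel -/

/-- `b (b + 2) ⋯ (b + 2 m - 2)` -/
noncomputable def PB (b m : ℕ) : ℝ := ∏ i ∈ range m, ((b : ℝ) + 2 * i)

/-- `1 · 3 ⋯ (2 m - 1)` -/
noncomputable def DD (m : ℕ) : ℝ := ∏ i ∈ range m, (2 * (i : ℝ) + 1)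

theorem PB_pos {b : ℕ} (hb : 1 ≤ b) (m : ℕ) : 0 < PB b m := by
  refine prod_pos fun i _ => ?_
  have : (1 : ℝ) ≤ b := by exact_mod_cast hb
  positivity

theorem DD_pos (m : ℕ) : 0 < DD m := prod_pos fun i _ => by positivity

theorem PB_succ (b m : ℕ) : PB b (m + 1) = PB b m * (b + 2 * m) := prod_range_succ _ _

theorem DD_succ (m : ℕ) : DD (m + 1) = DD m * (2 * m + 1) := prod_range_succ _ _

/-- `(2 m)! = 2 ^ m m! (2 m - 1)!!` -/
theorem fact_two (m : ℕ) : ((2 * m).factorial : ℝ) = 2 ^ m * m.factorial * DD m := by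
  induction m with
  | zero => simp [DD]
  | succ m ih =>
    have h : 2 * (m + 1) = (2 * m + 1) + 1 := by ring
    rw [h, Nat.factorial_succ, Nat.factorial_succ, DD_succ, Nat.factorial_succ]
    push_cast
    rw [ih]
    ring

section
variable {V : Submodule ℝ A} {B : LinearMap.BilinForm ℝ V} (hs : B.IsSymm)
  (hn : B.Nondegenerate) {ι : Type*} [Fintype ι] [DecidableEq ι] (f : Module.Basis ι ℝ V)

include hs in
theorem quadk (hb : 1 ≤ Module.finrank ℝ V) (L : A →ₗ[ℝ] ℝ) (c : ℝ) (k : ℕ) : ∀ N : ℕ,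
    (∀ v : V, L ((v : A) ^ (2 * (N + k))) = c * B v v ^ (N + k)) → ∀ v : V,
    L ((v : A) ^ (2 * N) * qd hn f ^ k) =
      c * (PB (Module.finrank ℝ V) (N + k) * DD N) / (PB (Module.finrank ℝ V) N * DD (N + k)) *
        B v v ^ N := by
  set b := Module.finrank ℝ V with hbd
  induction k with
  | zero =>
    intro N h v
    have h1 := (PB_pos hb N).ne'
    have h2 := (DD_pos N).ne'
    have h0 := h v
    simp only [add_zero] at h0 ⊢
    rw [pow_zero, mul_one, h0, mul_div_assoc, div_self (mul_ne_zero h1 h2), mul_one]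
  | succ k ih =>
    intro N h v
    have e1 : N + (k + 1) = (N + 1) + k := by ring
    have h1 := ih (N + 1) (by rw [← e1]; exact h)
    set c' : ℝ := c * (PB b (N + 1 + k) * DD (N + 1)) / (PB b (N + 1) * DD (N + 1 + k)) with hc'
    have h2 := quad hs hn f (L ∘ₗ LinearMap.mulRight ℝ (qd hn f ^ k)) (c := c') (N := N)
      (fun v => by
        simp only [LinearMap.comp_apply, LinearMap.mulRight_apply]
        exact h1 v) v
    simp only [LinearMap.comp_apply, LinearMap.mulRight_apply] at h2
    rw [mul_assoc, ← pow_succ', ← hbd] at h2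
    have p1 := PB_pos hb N
    have p2 := DD_pos (N + 1 + k)
    have p3 : (0 : ℝ) < 2 * N + 1 := by positivity
    have p4 : (0 : ℝ) < (b : ℝ) + 2 * N := by
      have : (1 : ℝ) ≤ b := by exact_mod_cast hb
      positivity
    refine mul_left_cancel₀ p3.ne' ?_
    rw [h2, e1, hc', PB_succ, DD_succ]
    field_simp

end

end Pool.Agent.Lib.P26dde3
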