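import Mathlib

/-!
# Lorentzian forms and the S-lemma
-/

namespace Pool.Agent.Lib.P26dde3

open Finset

variable {N : Type*} [AddCommGroup N] [Module ℝ N]

theorem bexp {B : LinearMap.BilinForm ℝ N} (hs : B.IsSymm) (z x : N) (t : ℝ) :
    B (z + t • x) (z + t • x) = B z z + 2 * t * B z x + t ^ 2 * B x x := by
  have h : B x z = B z x := hs.eq x z
  simp only [map_add, map_smul, LinearMap.add_apply, LinearMap.smul_apply, smul_eq_mul, h]
  ring

/-- a quadratic polynomial with positive constant term and negative leading coefficient has roots of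
both signs -/
theorem root {c0 b0 a : ℝ} (hc : 0 < c0) (ha : a < 0) (χ : ℝ) :
    ∃ t : ℝ, t ≠ 0 ∧ c0 + 2 * t * b0 + t ^ 2 * a = 0 ∧ t * χ ≤ 0 := by
  set D : ℝ := b0 ^ 2 - a * c0 with hD
  have hac : 0 < -(a * c0) := by nlinarith
  have hDpos : 0 < D := by nlinarith [sq_nonneg b0]
  have hsq : Real.sqrt D ^ 2 = D := Real.sq_sqrt hDpos.le
  have habs : |b0| < Real.sqrt D := by
    rw [← Real.sqrt_sq_eq_abs]
    exact Real.sqrt_lt_sqrt (sq_nonneg _) (by linarith)
  have h1 := abs_lt.1 habs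
  rcases le_total χ 0 with hχ | hχ
  · -- positive root
    refine ⟨(-b0 - Real.sqrt D) / a, ?_, ?_, ?_⟩
    · exact (div_pos_of_neg_of_neg (by linarith) ha).ne'
    · have ha' := ha.ne
      field_simp
      linear_combination hsq + hD
    · exact mul_nonpos_of_nonneg_of_nonpos
        (div_pos_of_neg_of_neg (by linarith) ha).le hχ
  · refine ⟨(-b0 + Real.sqrt D) / a, ?_, ?_, ?_⟩
    · exact (div_neg_of_pos_of_neg (by linarith) ha).ne
    · have ha' := ha.ne
      field_simp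
      linear_combination hsq + hD
    · exact mul_nonpos_of_nonpos_of_nonneg
        (div_neg_of_pos_of_neg (by linarith) ha).le hχ

/-- the S-lemma -/
theorem slemma {B φ : LinearMap.BilinForm ℝ N} (hs : B.IsSymm) (hφ : φ.IsSymm) {h : N}
    (hh : 0 < B h h) (hpos : ∀ x, 0 ≤ B x x → 0 ≤ φ x x) :
    ∃ τ : ℝ, 0 ≤ τ ∧ ∀ x, 0 ≤ φ x x - τ * B x x := by
  set S : Set ℝ := {r | ∃ z, 0 < B z z ∧ r = φ z z / B z z} with hS
  have hne : S.Nonempty := ⟨_, h, hh, rfl⟩
  have hlow : ∀ r ∈ S, 0 ≤ r := by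
    rintro r ⟨z, hz, rfl⟩
    exact div_nonneg (hpos z hz.le) hz.le
  have hbdd : BddBelow S := ⟨0, hlow⟩
  refine ⟨sInf S, le_csInf hne hlow, fun x => ?_⟩
  rcases lt_trichotomy (B x x) 0 with hx | hx | hx
  · by_contra hcon
    push Not at hcon
    -- φ x x / B x x > τ
    have h1 : sInf S < φ x x / B x x := by
      rw [lt_div_iff_of_neg hx]
      linarith
    obtain ⟨r, ⟨z, hz, rfl⟩, hr⟩ := exists_lt_of_csInf_lt hne h1
    obtain ⟨τ, h2, h3⟩ := exists_between hr
    have h4 : φ z z - τ * B z z < 0 := by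
      rw [div_lt_iff₀ hz] at h2
      linarith
    have h5 : φ x x - τ * B x x < 0 := by
      rw [lt_div_iff_of_neg hx] at h3
      linarith
    obtain ⟨t, ht0, ht1, ht2⟩ := root (b0 := B z x) hz hx (φ z x - τ * B z x)
    have h6 : B (z + t • x) (z + t • x) = 0 := by
      rw [bexp hs, ht1]
    have h7 := hpos (z + t • x) h6.ge
    have h8 : φ (z + t • x) (z + t • x) - τ * B (z + t • x) (z + t • x) =
        (φ z z - τ * B z z) + 2 * (t * (φ z x - τ * B z x)) + t ^ 2 * (φ x x - τ * B x x) := by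
      rw [bexp hs, bexp hφ]
      ring
    rw [h6, mul_zero, sub_zero] at h8
    have h9 : t ^ 2 * (φ x x - τ * B x x) ≤ 0 :=
      mul_nonpos_of_nonneg_of_nonpos (sq_nonneg t) h5.le
    linarith
  · rw [hx, mul_zero, sub_zero]
    exact hpos x hx.ge
  · have h1 : sInf S ≤ φ x x / B x x := csInf_le hbdd ⟨x, hx, rfl⟩
    rw [le_div_iff₀ hx] at h1
    linarith

/-- orthogonal isotropic vectors of a Lorentzian form are proportional -/
theorem null_dep {B : LinearMap.BilinForm ℝ N} (hs : B.IsSymm) {h : N}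
    (hL : ∀ x, B h x = 0 → x ≠ 0 → B x x < 0) {e₁ e₂ : N} (h1 : B e₁ e₁ = 0) (h2 : B e₂ e₂ = 0)
    (h12 : B e₁ e₂ = 0) (hli : LinearIndependent ℝ ![e₁, e₂]) : False := by
  have he1 : e₁ ≠ 0 := by
    have := hli.ne_zero 0
    simpa using this
  by_cases h3 : B h e₁ = 0
  · exact (hL e₁ h3 he1).ne h1
  · have h4 : B h (B h e₂ • e₁ + (-B h e₁) • e₂) = 0 := by
      rw [map_add, map_smul, map_smul, smul_eq_mul, smul_eq_mul]
      ring
    have h5 : B h e₂ • e₁ + (-B h e₁) • e₂ ≠ 0 := by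
      intro h6
      have h7 := LinearIndependent.pair_iff.1 hli _ _ h6
      exact h3 (neg_eq_zero.1 h7.2)
    have h6 := hL _ h4 h5
    have h7 : B e₂ e₁ = 0 := by rw [← h12]; exact hs.eq _ _
    have h8 : B (B h e₂ • e₁ + (-B h e₁) • e₂) (B h e₂ • e₁ + (-B h e₁) • e₂) = 0 := by
      simp only [map_add, map_smul, LinearMap.add_apply, LinearMap.smul_apply, smul_eq_mul, h1,
        h2, h12, h7]
      ring
    exact h6.ne h8

end Pool.Agent.Lib.P26dde3
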