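import Mathlib
import Pool.Agent.Lib.P26dde3.Pol
import Pool.Agent.Lib.P26dde3.SLem

/-!
# Fourfolds: the numerical inequality, PSD forms in a basis
-/

namespace Pool.Agent.Lib.P26dde3

open Finset

theorem num_E {r : ℕ} {β : ℝ} (hr : (r : ℝ) < β) (l : Fin r → ℝ) (hl : ∀ k, 0 ≤ l k)
    (G : Fin r → Fin r → ℝ) (τ : ℝ) :
    let σ := ∑ k, l k * G k k
    let θ := σ + τ * r
    let E := ∑ k, ∑ m, l k * l m * G k m ^ 2 + τ * σ + τ * θ - θ ^ 2 / β
    0 ≤ E ∧ (E = 0 → (∀ k, l k * G k k = -τ) ∧ (∀ k m, k ≠ m → l k * l m * G k m ^ 2 = 0) ∧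
      θ = 0) := by
  intro σ θ E
  have hβ : 0 < β := lt_of_le_of_lt (Nat.cast_nonneg r) hr
  have hsplit : ∀ k, ∑ m, l k * l m * G k m ^ 2 =
      (l k * G k k) ^ 2 + ∑ m ∈ univ.erase k, l k * l m * G k m ^ 2 := by
    intro k
    rw [← add_sum_erase _ _ (mem_univ k)]
    ring
  set O : ℝ := ∑ k, ∑ m ∈ univ.erase k, l k * l m * G k m ^ 2 with hO
  have hO0 : 0 ≤ O := sum_nonneg fun k _ => sum_nonneg fun m _ =>
    mul_nonneg (mul_nonneg (hl k) (hl m)) (sq_nonneg _)
  set a : Fin r → ℝ := fun k => l k * G k k + τ with ha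
  have hθ : θ = ∑ k, a k := by
    change σ + τ * r = _
    rw [ha, sum_add_distrib, sum_const, card_univ, Fintype.card_fin, nsmul_eq_mul]
    ring
  have hS : ∑ k, a k ^ 2 = ∑ k, (l k * G k k) ^ 2 + 2 * τ * σ + τ ^ 2 * r := by
    have h1 : ∀ k, a k ^ 2 = (l k * G k k) ^ 2 + 2 * τ * (l k * G k k) + τ ^ 2 := fun k => by
      rw [ha]
      ring
    rw [sum_congr rfl fun k _ => h1 k, sum_add_distrib, sum_add_distrib, ← mul_sum, sum_const,
      card_univ, Fintype.card_fin, nsmul_eq_mul]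
    ring
  have hE : E = O + (∑ k, a k ^ 2 - θ ^ 2 / β) := by
    change ∑ k, ∑ m, l k * l m * G k m ^ 2 + τ * σ + τ * θ - θ ^ 2 / β = _
    rw [sum_congr rfl fun k _ => hsplit k, sum_add_distrib, hS]
    change _ + O + τ * σ + τ * (σ + τ * r) - _ = _
    ring
  have hC : θ ^ 2 ≤ r * ∑ k, a k ^ 2 := by
    have := sq_sum_le_card_mul_sum_sq (s := (univ : Finset (Fin r))) (f := a)
    rw [card_univ, Fintype.card_fin] at this
    rw [hθ]
    exact this
  have hS0 : 0 ≤ ∑ k, a k ^ 2 := sum_nonneg fun k _ => sq_nonneg _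
  have h2 : (1 - r / β) * ∑ k, a k ^ 2 ≤ ∑ k, a k ^ 2 - θ ^ 2 / β := by
    have h3 : θ ^ 2 / β ≤ (r * ∑ k, a k ^ 2) / β := div_le_div_of_nonneg_right hC hβ.le
    have h4 : (1 - r / β) * ∑ k, a k ^ 2 = ∑ k, a k ^ 2 - (r * ∑ k, a k ^ 2) / β := by ring
    rw [h4]
    linarith
  have h5 : 0 < 1 - r / β := by
    rw [sub_pos, div_lt_one hβ]
    exact hr
  have h6 : 0 ≤ (1 - r / β) * ∑ k, a k ^ 2 := mul_nonneg h5.le hS0
  refine ⟨by rw [hE]; linarith, fun h0 => ?_⟩
  rw [hE] at h0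
  have h7 : O = 0 := by linarith
  have h8 : (1 - r / β) * ∑ k, a k ^ 2 = 0 := by linarith
  have h9 : ∑ k, a k ^ 2 = 0 := (mul_eq_zero.1 h8).resolve_left h5.ne'
  have h10 : ∀ k, a k = 0 := by
    intro k
    have := (sum_eq_zero_iff_of_nonneg fun k _ => sq_nonneg (a k)).1 h9 k (mem_univ k)
    exact pow_eq_zero_iff (two_ne_zero) |>.1 this
  refine ⟨fun k => ?_, fun k m hkm => ?_, ?_⟩
  · have := h10 k
    rw [ha] at this
    linarith
  · have h11 := (sum_eq_zero_iff_of_nonneg fun k _ => sum_nonneg fun m _ =>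
      mul_nonneg (mul_nonneg (hl k) (hl m)) (sq_nonneg (G k m))).1 h7 k (mem_univ k)
    exact (sum_eq_zero_iff_of_nonneg fun m _ =>
      mul_nonneg (mul_nonneg (hl k) (hl m)) (sq_nonneg (G k m))).1 h11 m
        (mem_erase.2 ⟨hkm.symm, mem_univ m⟩)
  · rw [hθ]
    exact sum_eq_zero fun k _ => h10 k

/-- a form in an orthogonal basis -/
theorem diag_form {N : Type*} [AddCommGroup N] [Module ℝ N] {r : ℕ} {B ψ : LinearMap.BilinForm ℝ N}
    (hn : B.Nondegenerate) (g : Module.Basis (Fin r) ℝ N) (ho : ψ.IsOrthoᵢ g) (x x' : N) :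
    ψ x x' = ∑ k, ψ (g k) (g k) * (B (B.dualBasis hn g k) x * B (B.dualBasis hn g k) x') := by
  have h1 : ∀ w : N, w = ∑ i, B (B.dualBasis hn g i) w • g i := by
    intro w
    refine g.ext_elem fun i => ?_
    have h2 : g.coord i = B (B.dualBasis hn g i) := by
      refine g.ext fun j => ?_
      rw [Module.Basis.coord_apply, Module.Basis.repr_self, Finsupp.single_apply,
        LinearMap.BilinForm.apply_dualBasis_left]
    rw [map_sum, Finsupp.finsetSum_apply, sum_eq_single i]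
    · rw [map_smul, Finsupp.smul_apply, Module.Basis.repr_self, Finsupp.single_eq_same,
        smul_eq_mul, mul_one, ← h2, Module.Basis.coord_apply]
    · intro j _ hj
      rw [map_smul, Finsupp.smul_apply, Module.Basis.repr_self, Finsupp.single_eq_of_ne hj.symm,
        smul_zero]
    · intro h
      exact absurd (mem_univ i) h
  have h5 : ∀ k, ψ (g k) x' = ψ (g k) (g k) * B (B.dualBasis hn g k) x' := by
    intro k
    conv_lhs => rw [h1 x']
    rw [map_sum, sum_eq_single k]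
    · rw [map_smul, smul_eq_mul, mul_comm]
    · intro j _ hj
      have h3 : ψ (g k) (g j) = 0 := ho hj.symm
      rw [map_smul, h3, smul_zero]
    · intro h
      exact absurd (mem_univ k) h
  conv_lhs => rw [h1 x]
  rw [LinearMap.map_sum₂]
  refine sum_congr rfl fun k _ => ?_
  rw [LinearMap.map_smul₂, h5 k, smul_eq_mul]
  ring

end Pool.Agent.Lib.P26dde3
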