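import Mathlib
import Pool.Agent.Lib.P26dde3.Pol

/-!
# The kernel

`zk h = ∑ (-1) ^ k (2 ^ (n - k) b (b + 2) ⋯ / (k! (n - 2 k)!)) B(h, h) ^ k qd ^ k h ^ (n - 2 k)` satisfies
`L (zk h * v ^ n) = c b (b + 2) ⋯ / (2 n - 1)!! * (2 B(h, v)) ^ n`.
-/

namespace Pool.Agent.Lib.P26dde3

open Finset Polynomial

variable {A : Type*} [CommRing A] [Algebra ℝ A]
  {V : Submodule ℝ A} {B : LinearMap.BilinForm ℝ V} (hs : B.IsSymm)
  (hn : B.Nondegenerate) {ι : Type*} [Fintype ι] [DecidableEq ι] (f : Module.Basis ι ℝ V)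

/-- the coefficients -/
noncomputable def ac (b n k : ℕ) : ℝ :=
  if 2 * k ≤ n then (-1) ^ k * (2 ^ (n - k) * PB b (n - k)) / (k.factorial * (n - 2 * k).factorial)
  else 0

/-- the kernel -/
noncomputable def zk (n : ℕ) (h : V) : A :=
  ∑ k ∈ range (n + 1), (ac (Module.finrank ℝ V) n k * B h h ^ k) •
    (qd hn f ^ k * (h : A) ^ (n - 2 * k))

/-- the trinomial identity -/
theorem tri (R C1 Q : ℝ) (n : ℕ) :
    ∑ k ∈ range (n + 1), (if 2 * k ≤ n then (-1) ^ k * (n.choose k : ℝ) * Q ^ k *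
      ((C R + C C1 * X + C Q * X ^ 2 : ℝ[X]) ^ (n - k)).coeff (n - 2 * k) else 0) = C1 ^ n := by
  set T : ℝ[X] := C R + C C1 * X + C Q * X ^ 2 with hT
  have h1 : ((C R + C C1 * X : ℝ[X]) ^ n).coeff n = C1 ^ n := by
    have h2 : (C R + C C1 * X : ℝ[X]).natDegree ≤ 1 := by
      refine (natDegree_add_le _ _).trans (max_le (by simp) ?_)
      exact (natDegree_C_mul_le _ _).trans natDegree_X_le
    have h3 := coeff_pow_of_natDegree_le (m := n) h2
    rw [mul_one] at h3
    rw [h3]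
    simp
  have h4 : (C R + C C1 * X : ℝ[X]) = -(C Q * X ^ 2) + T := by
    rw [hT]
    ring
  rw [h4, add_pow, finsetSum_coeff] at h1
  rw [← h1]
  refine sum_congr rfl fun k _ => ?_
  have h5 : (-(C Q * X ^ 2)) ^ k * T ^ (n - k) * (n.choose k : ℝ[X]) =
      C ((-1) ^ k * (n.choose k : ℝ) * Q ^ k) * (X ^ (2 * k) * T ^ (n - k)) := by
    rw [neg_pow, mul_pow, ← pow_mul, ← C_pow]
    simp only [C_mul, C_pow, C_neg, C_1, map_natCast]
    ring
  rw [h5, coeff_C_mul, coeff_X_pow_mul']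
  split_ifs
  · rfl
  · simp

theorem fac_id {n k : ℕ} (hk : 2 * k ≤ n) :
    2 ^ (n - k) * DD (n - k) / (k.factorial * (n - 2 * k).factorial) =
      (n.choose k : ℝ) * ((2 * (n - k)).choose (n - 2 * k) : ℝ) := by
  have h1 : ((n.choose k : ℕ) : ℝ) * (k.factorial * (n - k).factorial) = n.factorial := by
    have := Nat.choose_mul_factorial_mul_factorial (by omega : k ≤ n)
    rw [mul_assoc] at this
    exact_mod_cast this
  have h2 : (((2 * (n - k)).choose (n - 2 * k) : ℕ) : ℝ) *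
      ((n - 2 * k).factorial * n.factorial) = 2 ^ (n - k) * (n - k).factorial * DD (n - k) := by
    have := Nat.choose_mul_factorial_mul_factorial (by omega : n - 2 * k ≤ 2 * (n - k))
    rw [mul_assoc, show 2 * (n - k) - (n - 2 * k) = n by omega] at this
    rw [← fact_two]
    exact_mod_cast this
  have p1 : (0 : ℝ) < k.factorial := by exact_mod_cast Nat.factorial_pos _
  have p2 : (0 : ℝ) < (n - 2 * k).factorial := by exact_mod_cast Nat.factorial_pos _
  have p3 : (0 : ℝ) < (n - k).factorial := by exact_mod_cast Nat.factorial_pos _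
  rw [div_eq_iff (by positivity)]
  refine mul_right_cancel₀ p3.ne' ?_
  calc 2 ^ (n - k) * DD (n - k) * ((n - k).factorial : ℝ) =
        2 ^ (n - k) * (n - k).factorial * DD (n - k) := by ring
    _ = _ := by
        rw [← h2, ← h1]
        ring

include hs in
/-- the kernel property -/
theorem kern (L : A →ₗ[ℝ] ℝ) (c : ℝ) (n : ℕ)
    (h : ∀ v : V, L ((v : A) ^ (2 * n)) = c * B v v ^ n) (hb : 1 ≤ Module.finrank ℝ V)
    (u v : V) :
    L (zk hn f n u * (v : A) ^ n) =
      c * PB (Module.finrank ℝ V) n / DD n * (2 * B u v) ^ n := by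
  set b := Module.finrank ℝ V with hbd
  rw [← tri (B v v) (2 * B u v) (B u u) n, mul_sum]
  unfold zk
  rw [sum_mul, map_sum]
  refine sum_congr rfl fun k hk => ?_
  rw [smul_mul_assoc, map_smul, smul_eq_mul]
  unfold ac
  split_ifs with h2
  swap
  · rw [zero_mul, zero_mul, mul_zero]
  have hkn : k ≤ n := by omega
  have hq := quadk hs hn f hb L c k (n - k) (by
    rw [Nat.sub_add_cancel hkn]
    exact h)
  rw [Nat.sub_add_cancel hkn, ← hbd] at hq
  set ck : ℝ := c * (PB b n * DD (n - k)) / (PB b (n - k) * DD n) with hck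
  have h3 := coef L (v : A) (u : A) (qd hn f ^ k) (2 * (n - k)) (C ck * (qpol B v u) ^ (n - k))
    (fun t => by
      rw [eval_mul, eval_pow, eval_C, qpol_eval hs, ← hq (v + t • u)]
      rfl) (j := n - 2 * k) (by omega)
  rw [coeff_C_mul, show 2 * (n - k) - (n - 2 * k) = n by omega] at h3
  have h4 : qd hn f ^ k * (u : A) ^ (n - 2 * k) * (v : A) ^ n =
      (v : A) ^ n * (u : A) ^ (n - 2 * k) * qd hn f ^ k := by ring
  have h5 : qpol B v u = C (B v v) + C (2 * B u v) * X + C (B u u) * X ^ 2 := by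
    unfold qpol
    rw [sy hs v u]
  rw [h4, ← h5]
  have p0 : (0 : ℝ) < ((2 * (n - k)).choose (n - 2 * k) : ℝ) := by
    exact_mod_cast Nat.choose_pos (by omega)
  refine mul_left_cancel₀ p0.ne' ?_
  have h6 := fac_id h2
  have p1 := PB_pos hb (n - k)
  have p2 := DD_pos n
  have p3 := DD_pos (n - k)
  have h7 : ((2 * (n - k)).choose (n - 2 * k) : ℝ) * ((-1) ^ k * (2 ^ (n - k) * PB b (n - k)) /
      (k.factorial * (n - 2 * k).factorial) * B u u ^ k *
      L ((v : A) ^ n * (u : A) ^ (n - 2 * k) * qd hn f ^ k)) =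
      (-1) ^ k * (2 ^ (n - k) * PB b (n - k)) /
      (k.factorial * (n - 2 * k).factorial) * B u u ^ k *
      (ck * ((qpol B v u) ^ (n - k)).coeff (n - 2 * k)) := by
    rw [← h3]
    ring
  rw [h7, hck]
  have h8 : (2 : ℝ) ^ (n - k) / (k.factorial * (n - 2 * k).factorial) =
      (n.choose k : ℝ) * ((2 * (n - k)).choose (n - 2 * k) : ℝ) / DD (n - k) := by
    rw [← h6]
    field_simp
  have h9 : (-1 : ℝ) ^ k * (2 ^ (n - k) * PB b (n - k)) /
      (k.factorial * (n - 2 * k).factorial) =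
      (-1) ^ k * PB b (n - k) * (2 ^ (n - k) / (k.factorial * (n - 2 * k).factorial)) := by
    ring
  rw [h9, h8]
  field_simp

end Pool.Agent.Lib.P26dde3
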