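import Mathlib
import Pool.Agent.Lib.P26dde3.Kern

/-!
# Classes of rank one: the value of `L (s * s)`
-/

namespace Pool.Agent.Lib.P26dde3

open Finset Polynomial

/-! ### the numerical identity -/

theorem ac_zero (b m : ℕ) :
    ((m : ℝ) + 2) * ac b (m + 2) 0 = 2 * (2 * m + 2 + b) * ac b (m + 1) 0 := by
  unfold ac
  rw [if_pos (by omega), if_pos (by omega)]
  simp only [pow_zero, one_mul, Nat.factorial_zero, Nat.cast_one, mul_zero, Nat.sub_zero]
  have e1 : PB b (m + 2) = PB b (m + 1) * (b + 2 * ((m : ℝ) + 1)) := by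
    have := PB_succ b (m + 1)
    push_cast at this
    exact this
  have e2 : ((m + 2).factorial : ℝ) = ((m : ℝ) + 2) * ((m + 1).factorial : ℝ) := by
    have := Nat.factorial_succ (m + 1)
    rw [this]
    push_cast
    ring
  have p1 : (0 : ℝ) < (m + 1).factorial := by exact_mod_cast Nat.factorial_pos _
  have p2 : (0 : ℝ) < (m : ℝ) + 2 := by positivity
  rw [e1, e2]
  field_simp
  ring

theorem ac_succ (b m k : ℕ) :
    ((m : ℝ) + 2) * ac b (m + 2) (k + 1) =
      2 * (2 * m + 2 + b) * ac b (m + 1) (k + 1) - 4 * (m + b) * ac b m k := by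
  by_cases h : 2 * k ≤ m
  swap
  · unfold ac
    rw [if_neg (by omega), if_neg (by omega), if_neg h]
    simp
  obtain ⟨r, hr⟩ := Nat.exists_eq_add_of_le h
  have p1 : (0 : ℝ) < k.factorial := by exact_mod_cast Nat.factorial_pos _
  have p3 : (0 : ℝ) < r.factorial := by exact_mod_cast Nat.factorial_pos _
  have e0 : ac b m k = (-1) ^ k * (2 ^ (k + r) * PB b (k + r)) / (k.factorial * r.factorial) := by
    unfold ac
    rw [if_pos h, show m - k = k + r by omega, show m - 2 * k = r by omega]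
  have e1 : PB b (k + r + 1) = PB b (k + r) * (b + 2 * ((k : ℝ) + r)) := by
    have := PB_succ b (k + r)
    push_cast at this
    exact this
  have e2 : ac b (m + 2) (k + 1) = (-1) ^ (k + 1) * (2 ^ (k + r + 1) * PB b (k + r + 1)) /
      (((k + 1) * k.factorial) * r.factorial) := by
    unfold ac
    rw [if_pos (by omega), show m + 2 - (k + 1) = k + r + 1 by omega,
      show m + 2 - 2 * (k + 1) = r by omega, Nat.factorial_succ]
    push_cast
    ring
  have e3 : ac b (m + 1) (k + 1) = (-1) ^ (k + 1) * (2 ^ (k + r) * PB b (k + r)) * r /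
      (((k + 1) * k.factorial) * r.factorial) := by
    unfold ac
    rcases r with _ | r
    · rw [if_neg (by omega)]
      simp
    · rw [if_pos (by omega), show m + 1 - (k + 1) = k + (r + 1) by omega,
        show m + 1 - 2 * (k + 1) = r by omega, Nat.factorial_succ, Nat.factorial_succ]
      have p4 : (0 : ℝ) < r.factorial := by exact_mod_cast Nat.factorial_pos _
      push_cast
      field_simp
  have hm : (m : ℝ) = 2 * k + r := by
    rw [hr]
    push_cast
    ring
  rw [e0, e2, e3, e1, hm, pow_succ, pow_succ (2 : ℝ)]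
  field_simp
  ring

theorem ac_big {b n k : ℕ} (h : n < 2 * k) : ac b n k = 0 := by
  unfold ac
  rw [if_neg (by omega)]

theorem sum_ext (b n N : ℕ) (h : n + 1 ≤ N) :
    ∑ k ∈ range N, ac b n k = ∑ k ∈ range (n + 1), ac b n k := by
  symm
  refine sum_subset (range_subset_range.2 h) fun k _ hk => ?_
  rw [mem_range, not_lt] at hk
  exact ac_big (by omega)

theorem ac_rec (b m : ℕ) :
    ((m : ℝ) + 2) * ∑ k ∈ range (m + 3), ac b (m + 2) k =
      2 * (2 * m + 2 + b) * ∑ k ∈ range (m + 2), ac b (m + 1) k -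
        4 * (m + b) * ∑ k ∈ range (m + 1), ac b m k := by
  rw [← sum_ext b (m + 1) (m + 3) (by omega), ← sum_ext b m (m + 2) (by omega),
    sum_range_succ' _ (m + 2), sum_range_succ' _ (m + 2), mul_add, mul_add, mul_sum, mul_sum,
    mul_sum, ac_zero, sum_congr rfl (fun k _ => ac_succ b m k), sum_sub_distrib]
  ring

theorem ac_sum {b : ℕ} (hb : 1 ≤ b) (n : ℕ) :
    ∑ k ∈ range (n + 1), ac b n k = 2 ^ n * ((b + n - 1).choose n : ℝ) := by
  obtain ⟨a, rfl⟩ := Nat.exists_eq_add_of_le' hb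
  have hc : ∀ m : ℕ, (((a + 1 + (m + 1) - 1).choose (m + 1) : ℕ) : ℝ) * (m + 1) =
      (a + 1 + m) * ((a + 1 + m - 1).choose m : ℝ) := by
    intro m
    have h1 := Nat.add_one_mul_choose_eq (a + m) m
    have e1 : a + 1 + (m + 1) - 1 = a + m + 1 := by omega
    have e2 : a + 1 + m - 1 = a + m := by omega
    rw [e1, e2]
    have h2 : (((a + m + 1) * (a + m).choose m : ℕ) : ℝ) =
        (((a + m + 1).choose (m + 1) * (m + 1) : ℕ) : ℝ) := by
      exact_mod_cast h1
    push_cast at h2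
    linarith
  have key : ∀ n, (∑ k ∈ range (n + 1), ac (a + 1) n k =
      2 ^ n * ((a + 1 + n - 1).choose n : ℝ)) ∧
      (∑ k ∈ range (n + 2), ac (a + 1) (n + 1) k =
      2 ^ (n + 1) * ((a + 1 + (n + 1) - 1).choose (n + 1) : ℝ)) := by
    intro n
    induction n with
    | zero =>
      constructor
      · simp [ac, PB]
      · rw [sum_range_succ, sum_range_one, ac_big (by omega : 0 + 1 < 2 * 1), add_zero]
        have e1 : a + 1 + (0 + 1) - 1 = a + 1 := by omega
        rw [e1]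
        simp [ac, PB]
    | succ n ih =>
      refine ⟨ih.2, ?_⟩
      have h1 := ac_rec (a + 1) n
      rw [ih.1, ih.2] at h1
      have h2 := hc n
      have h3 := hc (n + 1)
      have p : (0 : ℝ) < (n : ℝ) + 2 := by positivity
      refine mul_left_cancel₀ p.ne' ?_
      refine h1.trans ?_
      push_cast at h2 h3 ⊢
      have e3 : 2 * (2 * (n : ℝ) + 2 + (a + 1)) * (2 ^ (n + 1) *
          ((a + 1 + (n + 1) - 1).choose (n + 1) : ℝ)) -
          4 * (n + (a + 1)) * (2 ^ n * ((a + 1 + n - 1).choose n : ℝ)) =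
          2 ^ (n + 2) * ((2 * (n : ℝ) + 2 + (a + 1)) * ((a + 1 + (n + 1) - 1).choose (n + 1) : ℝ) -
            (a + 1 + n) * ((a + 1 + n - 1).choose n : ℝ)) := by
        ring
      rw [e3, ← h2]
      have e4 : (n : ℝ) + 1 + 1 = n + 2 := by ring
      rw [e4] at h3
      have e5 : (n : ℝ) + 2 ≠ 0 := p.ne'
      calc (2 : ℝ) ^ (n + 2) * ((2 * (n : ℝ) + 2 + (a + 1)) *
            ((a + 1 + (n + 1) - 1).choose (n + 1) : ℝ) -
            ((a + 1 + (n + 1) - 1).choose (n + 1) : ℝ) * (n + 1)) =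
            2 ^ (n + 2) * ((a + 1 + (n + 1)) * ((a + 1 + (n + 1) - 1).choose (n + 1) : ℝ)) := by
              ring
        _ = _ := by
            rw [← h3]
            ring
  exact (key n).1

/-! ### classes of rank one -/

variable {A : Type*} [CommRing A] [Algebra ℝ A]
  {V : Submodule ℝ A} {B : LinearMap.BilinForm ℝ V} (hs : B.IsSymm)
  (hn : B.Nondegenerate) {ι : Type*} [Fintype ι] [DecidableEq ι] (f : Module.Basis ι ℝ V)

theorem qd_mem : qd hn f ∈ V ^ 2 := by
  unfold qd
  refine Submodule.sum_mem _ fun i _ => ?_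
  rw [pow_two]
  exact Submodule.mul_mem_mul (f i).2 (B.dualBasis hn f i).2

/-- removing a vector -/
theorem rem_one (L : A →ₗ[ℝ] ℝ) {n : ℕ} {h : V} (hQ : B h h ≠ 0) {s : A}
    (hk : ∀ x : V, B h x = 0 → ∀ w ∈ V ^ n, L (s * x * w) = 0) (a : V) {w : A}
    (hw : w ∈ V ^ n) : B h h * L (s * a * w) = B h a * L (s * h * w) := by
  have h1 : B h (a - (B h a / B h h) • h) = 0 := by
    rw [map_sub, map_smul, smul_eq_mul, div_mul_cancel₀ _ hQ, sub_self]
  have h2 := hk _ h1 w hw
  have h3 : s * ((a - (B h a / B h h) • h : V) : A) * w =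
      s * a * w - (B h a / B h h) • (s * h * w) := by
    have h4 : ((a - (B h a / B h h) • h : V) : A) = (a : A) - (B h a / B h h) • (h : A) := rfl
    rw [h4, mul_sub, sub_mul, mul_smul_comm, smul_mul_assoc]
  rw [h3, map_sub, map_smul, smul_eq_mul, sub_eq_zero] at h2
  rw [h2]
  field_simp

/-- powers of a vector -/
theorem rem_pow (L : A →ₗ[ℝ] ℝ) {n : ℕ} {h : V} (hQ : B h h ≠ 0) {s : A}
    (hk : ∀ x : V, B h x = 0 → ∀ m, m + 1 = n → ∀ w ∈ V ^ m, L (s * x * w) = 0) (v : V) (k : ℕ) :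
    k ≤ n → B h h ^ k * L (s * (v : A) ^ k * (h : A) ^ (n - k)) =
      B h v ^ k * L (s * (h : A) ^ n) := by
  induction k with
  | zero =>
    intro _
    simp
  | succ k ih =>
    intro hkn
    have e1 : n - k = n - (k + 1) + 1 := by omega
    have hw : (v : A) ^ k * (h : A) ^ (n - (k + 1)) ∈ V ^ (n - 1) := by
      have e2 : n - 1 = k + (n - (k + 1)) := by omega
      rw [e2, pow_add]
      exact Submodule.mul_mem_mul (Submodule.pow_mem_pow V v.2 k)
        (Submodule.pow_mem_pow V h.2 _)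
    have h1 := rem_one L hQ (fun x hx w hw => hk x hx (n - 1) (by omega) w hw) v hw
    have h2 : s * (v : A) ^ (k + 1) * (h : A) ^ (n - (k + 1)) =
        s * v * ((v : A) ^ k * (h : A) ^ (n - (k + 1))) := by ring
    have h3 : s * (h : A) * ((v : A) ^ k * (h : A) ^ (n - (k + 1))) =
        s * (v : A) ^ k * (h : A) ^ (n - k) := by
      rw [e1]
      ring
    rw [h3] at h1
    rw [h2, pow_succ, mul_assoc, h1, pow_succ]
    have h4 := ih (by omega)
    linear_combination (B h v) * h4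

include hs in
/-- the dual class -/
theorem rem_qd (L : A →ₗ[ℝ] ℝ) {n : ℕ} {h : V} (hQ : B h h ≠ 0) {s : A}
    (hk : ∀ x : V, B h x = 0 → ∀ w ∈ V ^ (n + 1), L (s * x * w) = 0) {w : A}
    (hw : w ∈ V ^ n) : B h h * L (s * qd hn f * w) = L (s * (h : A) ^ 2 * w) := by
  have h1 : ∀ a b : V, B h h * (B h h * L (s * (a * b : A) * w)) =
      B h a * B h b * L (s * (h : A) ^ 2 * w) := by
    intro a b
    have m1 : (b : A) * w ∈ V ^ (n + 1) := by
      rw [pow_succ']
      exact Submodule.mul_mem_mul b.2 hw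
    have m2 : (h : A) * w ∈ V ^ (n + 1) := by
      rw [pow_succ']
      exact Submodule.mul_mem_mul h.2 hw
    have e1 := rem_one L hQ hk a m1
    have e2 := rem_one L hQ hk b m2
    have e3 : s * ((a : A) * b) * w = s * a * (b * w) := by ring
    have e4 : s * (h : A) * (b * w) = s * b * (h * w) := by ring
    have e5 : s * (h : A) * (h * w) = s * (h : A) ^ 2 * w := by ring
    rw [e3, e1, e4]
    rw [e5] at e2
    linear_combination (B h a) * e2
  have h2 : L (s * qd hn f * w) = ∑ i, L (s * ((f i : A) * (B.dualBasis hn f i : A)) * w) := by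
    unfold qd
    rw [mul_sum, sum_mul, map_sum]
  refine mul_left_cancel₀ hQ ?_
  rw [h2, mul_sum, mul_sum, sum_congr rfl (fun i _ => h1 (f i) (B.dualBasis hn f i)),
    ← sum_mul, sum_two hs hn f h h]

include hs in
theorem rem_qdk (L : A →ₗ[ℝ] ℝ) {n : ℕ} {h : V} (hQ : B h h ≠ 0) {s : A}
    (hk : ∀ x : V, B h x = 0 → ∀ m, m + 1 = n → ∀ w ∈ V ^ m, L (s * x * w) = 0) (k : ℕ) : ∀ j : ℕ,
    2 * k + j = n → B h h ^ k * L (s * (qd hn f ^ k * (h : A) ^ j)) = L (s * (h : A) ^ n) := by
  induction k with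
  | zero =>
    intro j hj
    have : j = n := by omega
    subst this
    simp
  | succ k ih =>
    intro j hj
    have hw : qd hn f ^ k * (h : A) ^ j ∈ V ^ (n - 2) := by
      have e2 : n - 2 = 2 * k + j := by omega
      rw [e2, pow_add, pow_mul]
      exact Submodule.mul_mem_mul (Submodule.pow_mem_pow _ (qd_mem hn f) k)
        (Submodule.pow_mem_pow V h.2 _)
    have hk' : ∀ x : V, B h x = 0 → ∀ w ∈ V ^ (n - 2 + 1), L (s * x * w) = 0 :=
      fun x hx w hw => hk x hx (n - 2 + 1) (by omega) w hw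
    have h1 := rem_qd hs hn f L hQ hk' hw
    have h2 : s * (qd hn f ^ (k + 1) * (h : A) ^ j) =
        s * qd hn f * (qd hn f ^ k * (h : A) ^ j) := by ring
    have h3 : s * (h : A) ^ 2 * (qd hn f ^ k * (h : A) ^ j) =
        s * (qd hn f ^ k * (h : A) ^ (j + 2)) := by ring
    rw [h2, pow_succ, mul_assoc, h1, h3]
    exact ih (j + 2) (by omega)

include hs hn in
/-- the value of `L (s * s)` -/
theorem one [FiniteDimensional ℝ V] (L : A →ₗ[ℝ] ℝ) (c : ℝ) (n : ℕ)
    (hF : ∀ v : V, L ((v : A) ^ (2 * n)) = c * B v v ^ n) {h : V} (hQ : B h h ≠ 0) {s : A}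
    (hsn : s ∈ V ^ n) (hk : ∀ x : V, B h x = 0 → ∀ m, m + 1 = n → ∀ w ∈ V ^ m, L (s * x * w) = 0) :
    c * PB (Module.finrank ℝ V) n * B h h ^ n * L (s * s) =
      DD n * ((Module.finrank ℝ V + n - 1).choose n : ℝ) * L (s * (h : A) ^ n) ^ 2 := by
  have hh0 : h ≠ 0 := by
    rintro rfl
    exact hQ (by simp)
  have : Nontrivial V := ⟨h, 0, hh0⟩
  have hb : 1 ≤ Module.finrank ℝ V := Module.finrank_pos
  set f := Module.finBasis ℝ V with hf
  set d : ℝ := L (s * (h : A) ^ n) with hd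
  set K : ℝ := c * PB (Module.finrank ℝ V) n / DD n * 2 ^ n with hK
  have h1 : ∀ w ∈ V ^ n, (B h h ^ n * K) * L (s * w) - d * L (zk hn f n h * w) = 0 := by
    intro w hw
    refine pol V ((B h h ^ n * K) • (L ∘ₗ LinearMap.mulLeft ℝ s) -
      d • (L ∘ₗ LinearMap.mulLeft ℝ (zk hn f n h))) n (fun v hv => ?_) w hw
    have h2 := kern hs hn f L c n hF hb h ⟨v, hv⟩
    have h3 := rem_pow L hQ hk ⟨v, hv⟩ n le_rfl
    rw [Nat.sub_self, pow_zero, mul_one] at h3
    simp only [LinearMap.sub_apply, LinearMap.smul_apply, LinearMap.comp_apply,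
      LinearMap.mulLeft_apply, smul_eq_mul]
    rw [h2, mul_pow, hK]
    linear_combination (c * PB (Module.finrank ℝ V) n / DD n * 2 ^ n) * h3
  have h4 := h1 s hsn
  have h5 : L (zk hn f n h * s) =
      d * (2 ^ n * ((Module.finrank ℝ V + n - 1).choose n : ℝ)) := by
    unfold zk
    rw [sum_mul, map_sum, ← ac_sum hb n, mul_sum]
    refine sum_congr rfl fun k _ => ?_
    rw [smul_mul_assoc, map_smul, smul_eq_mul]
    by_cases h6 : 2 * k ≤ n
    · have h7 := rem_qdk hs hn f L hQ hk k (n - 2 * k) (by omega)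
      rw [mul_comm _ s, mul_assoc, h7]
      ring
    · rw [ac_big (by omega)]
      ring
  have p1 := DD_pos n
  have p2 : (0 : ℝ) < 2 ^ n := by positivity
  have h6 : K * DD n = c * PB (Module.finrank ℝ V) n * 2 ^ n := by
    rw [hK]
    field_simp
  rw [h5] at h4
  refine mul_left_cancel₀ p2.ne' ?_
  linear_combination (DD n) * h4 - (B h h ^ n * L (s * s)) * h6

end Pool.Agent.Lib.P26dde3
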