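import Mathlib
import Pool.Agent.Lib.P26dde3.One
import Pool.Agent.Lib.P26dde3.Num

/-!
# Fourfolds
-/

namespace Pool.Agent.Lib.P26dde3

open Finset

variable {A : Type*} [CommRing A] [Algebra ℝ A] {V : Submodule ℝ A}
  {B : LinearMap.BilinForm ℝ V}

/-- the bilinear form of a class -/
noncomputable def phi (L : A →ₗ[ℝ] ℝ) (y : A) (N : Submodule ℝ V) : LinearMap.BilinForm ℝ N :=
  LinearMap.mk₂ ℝ (fun x x' : N => L (y * ((x : V) : A) * ((x' : V) : A)))
    (fun a b c => by
      change L (y * (((a : V) : A) + ((b : V) : A)) * ((c : V) : A)) = _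
      rw [mul_add, add_mul, map_add])
    (fun t a c => by
      change L (y * (t • ((a : V) : A)) * ((c : V) : A)) = _
      rw [mul_smul_comm, smul_mul_assoc, map_smul])
    (fun a b c => by
      change L (y * ((a : V) : A) * (((b : V) : A) + ((c : V) : A))) = _
      rw [mul_add, map_add])
    (fun t a c => by
      change L (y * ((a : V) : A) * (t • ((c : V) : A))) = _
      rw [mul_smul_comm, map_smul])

theorem phi_apply (L : A →ₗ[ℝ] ℝ) (y : A) (N : Submodule ℝ V) (x x' : N) :
    phi L y N x x' = L (y * ((x : V) : A) * ((x' : V) : A)) := rfl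

theorem phi_symm (L : A →ₗ[ℝ] ℝ) (y : A) (N : Submodule ℝ V) : (phi L y N).IsSymm := by
  refine ⟨fun x x' => ?_⟩
  rw [phi_apply, phi_apply]
  congr 1
  ring

/-- the Fujiki relation on fourfolds, polarised -/
theorem fuj_four (hs : B.IsSymm) (L : A →ₗ[ℝ] ℝ) {c : ℝ}
    (hF : ∀ v : V, L ((v : A) ^ 4) = c * B v v ^ 2) (v x z : V) :
    L ((x : A) * z * (v : A) ^ 2) = c / 3 * (B v v * B x z + 2 * (B v x * B v z)) := by
  have h1 := fuj2 (N := 1) hs L (c := c) (fun v => hF v) v z x
  have h2 : (x : A) * z * (v : A) ^ 2 = (v : A) ^ (2 * 1) * x * z := by ring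
  rw [h2]
  simp only [Nat.cast_one, mul_one, pow_one, Nat.sub_self, pow_zero] at h1 ⊢
  linarith

/-! ### the theorem -/

section gen

variable {M : Type*} [AddCommGroup M] [Module ℝ M] {r : ℕ} {C : LinearMap.BilinForm ℝ M}
  (hn : C.Nondegenerate) (g : Module.Basis (Fin r) ℝ M)

theorem exp_gen (w : M) : w = ∑ i, C (C.dualBasis hn g i) w • g i := by
  refine g.ext_elem fun i => ?_
  have h2 : g.coord i = C (C.dualBasis hn g i) := by
    refine g.ext fun j => ?_
    rw [Module.Basis.coord_apply, Module.Basis.repr_self, Finsupp.single_apply,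
      LinearMap.BilinForm.apply_dualBasis_left]
  rw [map_sum, Finsupp.finsetSum_apply, sum_eq_single i]
  · rw [map_smul, Finsupp.smul_apply, Module.Basis.repr_self, Finsupp.single_eq_same,
      smul_eq_mul, mul_one, ← h2, Module.Basis.coord_apply]
  · intro j _ hj
    rw [map_smul, Finsupp.smul_apply, Module.Basis.repr_self, Finsupp.single_eq_of_ne hj.symm,
      smul_zero]
  · intro h
    exact absurd (mem_univ i) h

theorem form_gen (x x' : M) : C x x' = ∑ k, C x (g k) * C (C.dualBasis hn g k) x' := by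
  conv_lhs => rw [exp_gen hn g x']
  rw [map_sum]
  refine sum_congr rfl fun k _ => ?_
  rw [map_smul, smul_eq_mul, mul_comm]

end gen

section main

variable (N : Submodule ℝ V)

/-- a Lorentzian form is nondegenerate -/
theorem lor_nondeg {h : V} (hLor : ∀ x ∈ N, B h x = 0 → x ≠ 0 → B x x < 0) (hhN : h ∈ N)
    (hs : B.IsSymm) : (B.restrict N).Nondegenerate := by
  have key : ∀ x : N, (∀ z : N, B (z : V) (x : V) = 0) → x = 0 := by
    intro x hx
    by_contra hne
    have h1 : (x : V) ≠ 0 := fun h0 => hne (Subtype.ext h0)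
    exact (hLor x x.2 (hx ⟨h, hhN⟩) h1).ne (hx x)
  refine ⟨fun x hx => key x fun z => ?_, fun x hx => key x fun z => hx z⟩
  rw [← hx z]
  exact hs.eq _ _

/-- the bilinear form of `y` on all of `V` -/
theorem yform (hs : B.IsSymm) [FiniteDimensional ℝ V] (L : A →ₗ[ℝ] ℝ) (y : A)
    (hT : ∀ x : V, (∀ z ∈ N, B z x = 0) → y * x = 0) (τ : ℝ) {r : ℕ}
    (g : Module.Basis (Fin r) ℝ N) {ψ : LinearMap.BilinForm ℝ N}
    (hψ : ψ = phi L y N - τ • B.restrict N) (ho : ψ.IsOrthoᵢ g)
    (hn : (B.restrict N).Nondegenerate) {gd : Module.Basis (Fin r) ℝ N}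
    (hgd : gd = LinearMap.BilinForm.dualBasis (K := ℝ) (V := N) (B.restrict N) hn g) (v w : V) :
    L (y * v * w) = ∑ k, ψ (g k) (g k) * (B (gd k : V) v * B (gd k : V) w) +
      τ * ∑ k, B (g k : V) v * B (gd k : V) w := by
  have hc := LinearMap.BilinForm.isCompl_orthogonal_of_restrict_nondegenerate
    (B := B) (W := N) hs.isRefl hn
  have hdec : ∀ v : V, ∃ x : N, (∀ z : N, B (z : V) v = B (z : V) (x : V)) ∧
      y * (v : A) = y * ((x : V) : A) := by
    intro v
    have h1 : v ∈ N ⊔ B.orthogonal N := by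
      rw [hc.sup_eq_top]
      exact Submodule.mem_top
    obtain ⟨x, hx, x', hx', rfl⟩ := Submodule.mem_sup.1 h1
    have h2 : ∀ z ∈ N, B z x' = 0 := fun z hz => hx' z hz
    refine ⟨⟨x, hx⟩, fun z => ?_, ?_⟩
    · rw [map_add, h2 z z.2, add_zero]
    · have h3 := hT x' h2
      change y * ((x : A) + (x' : A)) = _
      rw [mul_add, h3, add_zero]
  obtain ⟨a, ha1, ha2⟩ := hdec v
  obtain ⟨b, hb1, hb2⟩ := hdec w
  have h1 : L (y * v * w) = phi L y N a b := by
    rw [phi_apply, ha2]
    congr 1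
    have h2 : y * ((a : V) : A) * (w : A) = (y * (w : A)) * ((a : V) : A) := by ring
    rw [h2, hb2]
    ring
  have h2 := diag_form hn g ho a b
  have h3 := form_gen hn g a b
  rw [← hgd] at h2 h3
  have h4 : ψ a b = phi L y N a b - τ * B (a : V) (b : V) := by
    rw [hψ]
    rfl
  have h5 : B (a : V) (b : V) = ∑ k, B (g k : V) v * B (gd k : V) w := by
    change (B.restrict N) a b = _
    rw [h3]
    refine sum_congr rfl fun k _ => ?_
    have h6 : (B.restrict N) a (g k) = B (g k : V) v := by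
      rw [ha1]
      exact hs.eq _ _
    have h7 : (B.restrict N) (gd k) b = B (gd k : V) w := (hb1 _).symm
    rw [h6, h7]
  have h6 : ψ a b = ∑ k, ψ (g k) (g k) * (B (gd k : V) v * B (gd k : V) w) := by
    rw [h2]
    refine sum_congr rfl fun k _ => ?_
    rw [ha1, hb1]
    rfl
  rw [h1, ← h6, h4, ← h5]
  ring

end main

end Pool.Agent.Lib.P26dde3
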