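import Mathlib
import Pool.Agent.Lib.P26dde3.Four

/-!
# Fourfolds: the representing class and the main theorem
-/

namespace Pool.Agent.Lib.P26dde3

open Finset

variable {A : Type*} [CommRing A] [Algebra ℝ A] {V : Submodule ℝ A}
  {B : LinearMap.BilinForm ℝ V}

/-- the class representing `y` -/
theorem repr_class (hs : B.IsSymm) [FiniteDimensional ℝ V]
    (hB : B.Nondegenerate) (L : A →ₗ[ℝ] ℝ) {c : ℝ}
    (hF : ∀ v : V, L ((v : A) ^ 4) = c * B v v ^ 2) (y : A) {τ : ℝ} {r : ℕ}
    (g gd : Fin r → V) (l : Fin r → ℝ)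
    (hy : ∀ v w : V, L (y * v * w) = ∑ k, l k * (B (gd k) v * B (gd k) w) +
      τ * ∑ k, B (g k) v * B (gd k) w)
    (hg : ∀ k, B (g k) (gd k) = 1) {θ : ℝ}
    (hθ : θ = ∑ k, l k * B (gd k) (gd k) + τ * r) :
    ∃ S : A, S = ∑ k, l k • ((gd k : A) * gd k) + τ • ∑ k, (g k : A) * gd k -
        (θ / (Module.finrank ℝ V + 2)) • qd hB (Module.finBasis ℝ V) ∧
      S ∈ V ^ 2 ∧ (∀ v : V, L (S * (v : A) ^ 2) = 2 * c / 3 * L (y * v * v)) := by
  set f := Module.finBasis ℝ V with hf
  set κ : ℝ := θ / (Module.finrank ℝ V + 2) with hκ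
  have hmem : ∀ a b : V, (a : A) * b ∈ V ^ 2 := fun a b => by
    rw [pow_two]
    exact Submodule.mul_mem_mul a.2 b.2
  refine ⟨_, rfl, ?_, fun v => ?_⟩
  · refine Submodule.sub_mem _ (Submodule.add_mem _ (Submodule.sum_mem _ fun k _ =>
      Submodule.smul_mem _ _ (hmem _ _)) (Submodule.smul_mem _ _ (Submodule.sum_mem _ fun k _ =>
        hmem _ _))) (Submodule.smul_mem _ _ ?_)
    exact Submodule.sum_mem _ fun i _ => hmem _ _
  · have h1 : ∀ k, L ((gd k : A) * gd k * (v : A) ^ 2) =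
        c / 3 * (B v v * B (gd k) (gd k) + 2 * (B v (gd k) * B v (gd k))) := fun k =>
      fuj_four hs L hF v (gd k) (gd k)
    have h2 : ∀ k, L ((g k : A) * gd k * (v : A) ^ 2) =
        c / 3 * (B v v * B (g k) (gd k) + 2 * (B v (g k) * B v (gd k))) := fun k =>
      fuj_four hs L hF v (g k) (gd k)
    have h3 := quad hs hB f L (c := c) (N := 1) (fun v => hF v) v
    have h4 : L (qd hB f * (v : A) ^ 2) = c / 3 * ((Module.finrank ℝ V + 2) * B v v) := by
      rw [mul_comm]
      simp only [Nat.cast_one, mul_one, pow_one] at h3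
      linarith
    have h5 : L ((∑ k, l k • ((gd k : A) * gd k) + τ • ∑ k, (g k : A) * gd k -
        κ • qd hB f) * (v : A) ^ 2) = ∑ k, l k * L ((gd k : A) * gd k * (v : A) ^ 2) +
        τ * ∑ k, L ((g k : A) * gd k * (v : A) ^ 2) - κ * L (qd hB f * (v : A) ^ 2) := by
      rw [sub_mul, add_mul, map_sub, map_add, sum_mul, map_sum, smul_mul_assoc, map_smul,
        sum_mul, map_sum, smul_mul_assoc, map_smul, smul_eq_mul, smul_eq_mul]
      congr 2
      refine sum_congr rfl fun k _ => ?_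
      rw [smul_mul_assoc, map_smul, smul_eq_mul]
    rw [h5, h4, hy v v]
    have h6 : ∑ k, l k * L ((gd k : A) * gd k * (v : A) ^ 2) =
        c / 3 * (B v v * ∑ k, l k * B (gd k) (gd k) +
          2 * ∑ k, l k * (B (gd k) v * B (gd k) v)) := by
      rw [mul_sum, mul_sum, ← sum_add_distrib, mul_sum]
      refine sum_congr rfl fun k _ => ?_
      rw [h1, sy hs v (gd k)]
      ring
    have h7 : ∑ k, L ((g k : A) * gd k * (v : A) ^ 2) =
        c / 3 * (B v v * r + 2 * ∑ k, B (g k) v * B (gd k) v) := by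
      have e : (r : ℝ) = ∑ _k : Fin r, (1 : ℝ) := by simp
      rw [e, mul_sum, mul_sum, ← sum_add_distrib, mul_sum]
      refine sum_congr rfl fun k _ => ?_
      rw [h2, hg, sy hs v (g k), sy hs v (gd k)]
    have h8 : κ * (Module.finrank ℝ V + 2) = θ := by
      rw [hκ]
      have : (0 : ℝ) < Module.finrank ℝ V + 2 := by positivity
      field_simp
    rw [h6, h7]
    linear_combination (-(c / 3) * B v v) * h8 - (c / 3 * B v v) * hθ

/-- the value of `L (y S)` -/
theorem repr_value (hs : B.IsSymm) [FiniteDimensional ℝ V]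
    (hB : B.Nondegenerate) (L : A →ₗ[ℝ] ℝ) (y : A) {τ : ℝ} {r : ℕ}
    (g gd : Fin r → V) (l : Fin r → ℝ)
    (hy : ∀ v w : V, L (y * v * w) = ∑ k, l k * (B (gd k) v * B (gd k) w) +
      τ * ∑ k, B (g k) v * B (gd k) w)
    (hg : ∀ k m, B (gd k) (g m) = if k = m then 1 else 0)
    (hgg : ∀ k, ∑ m, B (g m) (gd k) * B (gd m) (gd k) = B (gd k) (gd k))
    (hg2 : ∀ k, ∑ m, B (g m) (g k) * B (gd m) (gd k) = 1)
    {θ κ : ℝ}
    (hθ : θ = ∑ k, l k * B (gd k) (gd k) + τ * r) :
    L (y * (∑ k, l k • ((gd k : A) * gd k) + τ • ∑ k, (g k : A) * gd k -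
        κ • qd hB (Module.finBasis ℝ V))) =
      ∑ k, ∑ m, l k * l m * B (gd m) (gd k) ^ 2 + τ * ∑ k, l k * B (gd k) (gd k) + τ * θ -
        κ * θ := by
  set f := Module.finBasis ℝ V with hf
  have h5 : L (y * (∑ k, l k • ((gd k : A) * gd k) + τ • ∑ k, (g k : A) * gd k -
        κ • qd hB f)) = ∑ k, l k * L (y * gd k * gd k) +
        τ * ∑ k, L (y * g k * gd k) - κ * L (y * qd hB f) := by
    rw [mul_sub, mul_add, map_sub, map_add, mul_sum, map_sum, mul_smul_comm, map_smul,
      mul_sum, map_sum, mul_smul_comm, map_smul, smul_eq_mul, smul_eq_mul]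
    congr 2
    · refine sum_congr rfl fun k _ => ?_
      rw [mul_smul_comm, map_smul, smul_eq_mul, mul_assoc y]
    · congr 1
      refine sum_congr rfl fun k _ => ?_
      rw [mul_assoc y]
  have h6 : ∑ k, l k * L (y * gd k * gd k) = ∑ k, ∑ m, l k * l m * B (gd m) (gd k) ^ 2 +
      τ * ∑ k, l k * B (gd k) (gd k) := by
    rw [mul_sum, ← sum_add_distrib]
    refine sum_congr rfl fun k _ => ?_
    rw [hy, hgg, mul_add, mul_sum]
    congr 1
    · refine sum_congr rfl fun m _ => ?_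
      ring
    · ring
  have h7 : ∑ k, L (y * g k * gd k) = θ := by
    have e : (r : ℝ) = ∑ _k : Fin r, (1 : ℝ) := by simp
    rw [hθ, e, mul_sum, ← sum_add_distrib]
    refine sum_congr rfl fun k _ => ?_
    rw [hy, hg2, sum_eq_single k]
    · rw [hg, if_pos rfl]
      ring
    · intro m _ hm
      rw [hg, if_neg hm]
      ring
    · intro h
      exact absurd (mem_univ k) h
  have h8 : L (y * qd hB f) = θ := by
    have h9 : L (y * qd hB f) = ∑ i, L (y * (f i : A) * (B.dualBasis hB f i : A)) := by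
      unfold qd
      rw [mul_sum, map_sum]
      refine sum_congr rfl fun i _ => ?_
      rw [mul_assoc y]
    have h10 : ∑ i, ∑ k, l k * (B (gd k) (f i) * B (gd k) (B.dualBasis hB f i)) =
        ∑ k, l k * B (gd k) (gd k) := by
      rw [sum_comm]
      refine sum_congr rfl fun k _ => ?_
      rw [← mul_sum, sum_two hs hB f (gd k) (gd k)]
    have h11 : ∑ i, ∑ k, B (g k) (f i) * B (gd k) (B.dualBasis hB f i) = r := by
      rw [sum_comm]
      have e : (r : ℝ) = ∑ _k : Fin r, (1 : ℝ) := by simp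
      rw [e]
      refine sum_congr rfl fun k _ => ?_
      rw [sum_two hs hB f (gd k) (g k), sy hs, hg, if_pos rfl]
    rw [h9, sum_congr rfl fun i _ => hy (f i) (B.dualBasis hB f i), sum_add_distrib, h10,
      ← mul_sum, h11, hθ]
  rw [h5, h6, h7, h8]

end Pool.Agent.Lib.P26dde3
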