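import Mathlib
import Pool.Agent.Lib.P26dde3.FourB

/-!
# Fourfolds: the main theorem
-/

namespace Pool.Agent.Lib.P26dde3

open Finset

variable {A : Type*} [CommRing A] [Algebra ℝ A] {V : Submodule ℝ A}
  {B : LinearMap.BilinForm ℝ V}

section gen

variable {M : Type*} [AddCommGroup M] [Module ℝ M] {r : ℕ}

theorem exists_ob [FiniteDimensional ℝ M] {ψ : LinearMap.BilinForm ℝ M} (h : ψ.IsSymm) :
    ∃ (r : ℕ) (g : Module.Basis (Fin r) ℝ M), r = Module.finrank ℝ M ∧ ψ.IsOrthoᵢ g := by
  have : Invertible (2 : ℝ) := invertibleOfNonzero two_ne_zero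
  obtain ⟨g, hg⟩ := LinearMap.BilinForm.exists_orthogonal_basis (K := ℝ) (V := M) (B := ψ)
    ⟨fun x y => h.eq x y⟩
  exact ⟨_, g, rfl, hg⟩

theorem del_gen {C : LinearMap.BilinForm ℝ M} (hn : C.Nondegenerate)
    (g : Module.Basis (Fin r) ℝ M) (k m : Fin r) :
    C (C.dualBasis hn g k) (g m) = if k = m then 1 else 0 := by
  rw [LinearMap.BilinForm.apply_dualBasis_left]
  simp only [eq_comm]

theorem pair_indep (g : Module.Basis (Fin r) ℝ M) {k m : Fin r} (hkm : k ≠ m) :
    LinearIndependent ℝ ![g k, g m] := by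
  rw [LinearIndependent.pair_iff]
  intro a b hab
  have e1 := congrArg (fun x => g.repr x k) hab
  have e2 := congrArg (fun x => g.repr x m) hab
  simp only [map_add, map_smul, Module.Basis.repr_self, Finsupp.add_apply, Finsupp.smul_apply,
    map_zero, Finsupp.zero_apply, Finsupp.single_eq_same, smul_eq_mul, mul_one,
    Finsupp.single_eq_of_ne hkm, Finsupp.single_eq_of_ne hkm.symm, mul_zero, add_zero,
    zero_add] at e1 e2
  exact ⟨e1, e2⟩

end gen

theorem four (hs : B.IsSymm) [FiniteDimensional ℝ V] (hB : B.Nondegenerate)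
    (L : A →ₗ[ℝ] ℝ) {c : ℝ} (hc : 0 < c) (hF : ∀ v : V, L ((v : A) ^ 4) = c * B v v ^ 2)
    (N : Submodule ℝ V) {h : V} (hhN : h ∈ N) (hh : 0 < B h h)
    (hLor : ∀ x ∈ N, B h x = 0 → x ≠ 0 → B x x < 0) (y : A)
    (hT : ∀ x : V, (∀ z ∈ N, B z x = 0) → y * x = 0)
    (hpos : ∀ x ∈ N, 0 ≤ B x x → 0 ≤ L (y * (x : A) ^ 2))
    (W : Submodule ℝ A) (hW : V ^ 2 ≤ W) (hyW : y ∈ W)
    (hHR : ∀ t ∈ W, (∀ w ∈ V ^ 2, L (t * w) = 0) → 0 ≤ L (t * t) ∧ (L (t * t) = 0 → t = 0)) :
    0 ≤ L (y * y) ∧ (L (y * y) = 0 → ∃ e ∈ N, B e e = 0 ∧ ∃ a : ℝ, 0 ≤ a ∧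
      y = a • (e : A) ^ 2) := by
  classical
  have hn := lor_nondeg N hLor hhN hs
  -- the multiplier
  have hsN : (B.restrict N).IsSymm := ⟨fun x x' => hs.eq (x : V) (x' : V)⟩
  obtain ⟨τ, hτ, hψ0⟩ := slemma (N := N) (B := B.restrict N) (φ := phi L y N) hsN
    (phi_symm L y N) (h := (⟨h, hhN⟩ : N)) hh (fun (x : N) hx => by
      have h1 := hpos (x : V) x.2 hx
      rw [phi_apply]
      have h2 : y * ((x : V) : A) * ((x : V) : A) = y * ((x : V) : A) ^ 2 := by ring
      rw [h2]
      exact h1)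
  set ψ : LinearMap.BilinForm ℝ N := phi L y N - τ • B.restrict N with hψ
  have hψs : ψ.IsSymm := by
    refine ⟨fun x x' => ?_⟩
    have h1 := (phi_symm L y N).eq x x'
    have h2 := hsN.eq x x'
    rw [hψ]
    simp only [LinearMap.sub_apply, LinearMap.smul_apply, smul_eq_mul]
    rw [h1, h2]
  have hψp : ∀ x : N, 0 ≤ ψ x x := fun x => by
    rw [hψ]
    exact hψ0 x
  obtain ⟨r, g, hr, ho⟩ := exists_ob (M := N) (ψ := ψ) hψs
  obtain ⟨gd, hgd⟩ : ∃ gd : Module.Basis (Fin r) ℝ N,
      gd = LinearMap.BilinForm.dualBasis (K := ℝ) (V := N) (B.restrict N) hn g := ⟨_, rfl⟩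
  have hyf : ∀ v w : V, L (y * v * w) =
      ∑ k, ψ (g k) (g k) * (B (gd k : V) v * B (gd k : V) w) +
      τ * ∑ k, B (g k : V) v * B (gd k : V) w := fun v w =>
    yform N hs L y hT τ g hψ ho hn hgd v w
  have hdel : ∀ k m, B (gd k : V) (g m : V) = if k = m then 1 else 0 := by
    intro k m
    have h1 := del_gen (M := N) hn g k m
    rw [← hgd] at h1
    exact h1
  have hform : ∀ a b : N, ∑ m, B (g m : V) (a : V) * B (gd m : V) (b : V) =
      B (a : V) (b : V) := by
    intro a b
    have h1 := form_gen (C := B.restrict N) hn g a b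
    rw [← hgd] at h1
    change (B.restrict N) a b = _ at h1
    change _ = (B.restrict N) a b
    rw [h1]
    refine sum_congr rfl fun m _ => ?_
    rw [sy hs (g m : V)]
    rfl
  have hgd1 : ∀ k, B (g k : V) (gd k : V) = 1 := fun k => by
    rw [sy hs, hdel, if_pos rfl]
  set l : Fin r → ℝ := fun k => ψ (g k) (g k) with hl
  have hl0 : ∀ k, 0 ≤ l k := fun k => hψp (g k)
  set G : Fin r → Fin r → ℝ := fun k m => B (gd m : V) (gd k : V) with hG
  have hrb : (r : ℝ) < Module.finrank ℝ V + 2 := by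
    have h1 : r ≤ Module.finrank ℝ V := hr ▸ Submodule.finrank_le N
    have h2 : (r : ℝ) ≤ Module.finrank ℝ V := by exact_mod_cast h1
    linarith
  have hnum := num_E hrb l hl0 G τ
  obtain ⟨S, hS, hS2, hSv⟩ := repr_class hs hB L hF y (fun k => (g k : V))
    (fun k => (gd k : V)) l hyf hgd1
    (θ := ∑ k, l k * G k k + τ * r) rfl
  have hval := repr_value hs hB L y (fun k => (g k : V)) (fun k => (gd k : V)) l hyf
    hdel (fun k => hform (gd k) (gd k)) (fun k => by rw [hform (g k) (gd k)]; exact hgd1 k)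
    (θ := ∑ k, l k * G k k + τ * r)
    (κ := (∑ k, l k * G k k + τ * r) / (Module.finrank ℝ V + 2)) rfl
  rw [← hS] at hval
  -- the number
  set σ : ℝ := ∑ k, l k * G k k with hσ
  set θ : ℝ := σ + τ * r with hθ
  set E : ℝ := ∑ k, ∑ m, l k * l m * G k m ^ 2 + τ * σ + τ * θ -
    θ ^ 2 / (Module.finrank ℝ V + 2) with hE
  have hval' : L (y * S) = E := by
    rw [hval, hE]
    ring
  have hnum' : 0 ≤ E ∧ (E = 0 → (∀ k, l k * G k k = -τ) ∧
      (∀ k m, k ≠ m → l k * l m * G k m ^ 2 = 0) ∧ θ = 0) := hnum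
  set s : A := (3 / (2 * c)) • S with hsdef
  have hsV : s ∈ V ^ 2 := Submodule.smul_mem _ _ hS2
  have hc3 : (3 / (2 * c)) * (2 * c / 3) = 1 := by
    field_simp
  have hsL : ∀ w ∈ V ^ 2, L ((y - s) * w) = 0 := by
    refine pol V (L ∘ₗ LinearMap.mulLeft ℝ (y - s)) 2 fun v hv => ?_
    rw [LinearMap.comp_apply, LinearMap.mulLeft_apply, sub_mul, map_sub, hsdef, smul_mul_assoc,
      map_smul, smul_eq_mul]
    have h1 := hSv ⟨v, hv⟩
    change L (S * v ^ 2) = 2 * c / 3 * L (y * v * v) at h1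
    have h2 : y * v ^ 2 = y * v * v := by ring
    rw [h1, h2]
    linear_combination (-L (y * v * v)) * hc3
  have htW : y - s ∈ W := Submodule.sub_mem _ hyW (hW hsV)
  obtain ⟨ht1, ht2⟩ := hHR (y - s) htW hsL
  have hyy : L (y * y) = 3 / (2 * c) * E + L ((y - s) * (y - s)) := by
    have h1 : y * y = y * s + ((y - s) * s + (y - s) * (y - s)) := by ring
    rw [h1, map_add, map_add, hsL s hsV, zero_add, ← hval']
    congr 1
    rw [hsdef, mul_smul_comm, map_smul, smul_eq_mul]
  have hc2 : 0 < 3 / (2 * c) := by positivity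
  refine ⟨?_, fun h0 => ?_⟩
  · rw [hyy]
    have := mul_nonneg hc2.le hnum'.1
    linarith
  · rw [hyy] at h0
    have hE0 : E = 0 := by
      have h1 := mul_nonneg hc2.le hnum'.1
      have h2 : 3 / (2 * c) * E = 0 := by linarith
      exact (mul_eq_zero.1 h2).resolve_left hc2.ne'
    have ht0 : L ((y - s) * (y - s)) = 0 := by
      rw [hE0, mul_zero, zero_add] at h0
      exact h0
    have hys : y = s := sub_eq_zero.1 (ht2 ht0)
    obtain ⟨q1, q2, q3⟩ := hnum'.2 hE0
    -- `τ = 0`
    have hτ0 : τ = 0 := by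
      by_contra hne
      have hτp : 0 < τ := lt_of_le_of_ne hτ (Ne.symm hne)
      have hlp : ∀ k, 0 < l k := fun k => lt_of_le_of_ne (hl0 k) fun h1 => by
        have h2 := q1 k
        rw [← h1, zero_mul] at h2
        linarith
      have hGk : ∀ k, G k k < 0 := fun k => by
        have h2 := q1 k
        by_contra h3
        push Not at h3
        have := mul_nonneg (hl0 k) h3
        linarith
      have hGkm : ∀ k m, k ≠ m → B (gd k : V) (gd m : V) = 0 := fun k m hkm => by
        have h2 := q2 k m hkm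
        have h3 := mul_ne_zero (hlp k).ne' (hlp m).ne'
        have h4 := (mul_eq_zero.1 h2).resolve_left h3
        have h5 : G k m = 0 := by
          exact pow_eq_zero_iff (two_ne_zero) |>.1 h4
        rw [sy hs]
        exact h5
      -- `B` is negative on `N`
      have hneg : ∀ x : N, B (x : V) (x : V) ≤ 0 := by
        intro x
        have h1 : (x : V) = ∑ i, gd.repr x i • (gd i : V) := by
          conv_lhs => rw [← gd.sum_repr x]
          rw [Submodule.coe_sum]
          rfl
        have h2 : B (x : V) (x : V) = ∑ i, gd.repr x i ^ 2 * B (gd i : V) (gd i : V) := by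
          conv_lhs => rw [h1]
          rw [LinearMap.map_sum₂]
          refine sum_congr rfl fun i _ => ?_
          rw [map_sum, sum_eq_single i]
          · rw [map_smul, LinearMap.map_smul₂, smul_eq_mul, smul_eq_mul]
            ring
          · intro j _ hj
            rw [map_smul, LinearMap.map_smul₂, hGkm i j hj.symm, smul_zero, smul_zero]
          · intro h
            exact absurd (mem_univ i) h
        rw [h2]
        exact sum_nonpos fun i _ => mul_nonpos_of_nonneg_of_nonpos (sq_nonneg _) (hGk i).le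
      exact absurd hh (not_lt.2 (hneg ⟨h, hhN⟩))
    -- at most one `l k` is nonzero
    have hlG : ∀ k, l k ≠ 0 → B (gd k : V) (gd k : V) = 0 := fun k hk => by
      have h1 := q1 k
      rw [hτ0, neg_zero] at h1
      exact (mul_eq_zero.1 h1).resolve_left hk
    have huniq : ∀ k m, l k ≠ 0 → l m ≠ 0 → k = m := by
      intro k m hk hm
      by_contra hkm
      have h1 : B (gd k : V) (gd m : V) = 0 := by
        have h2 := q2 k m hkm
        have h3 := (mul_eq_zero.1 h2).resolve_left (mul_ne_zero hk hm)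
        have h4 : G k m = 0 := pow_eq_zero_iff (two_ne_zero) |>.1 h3
        rw [sy hs]
        exact h4
      have h5 := pair_indep (M := N) gd hkm
      have h6 : ∀ x : N, (B.restrict N) (⟨h, hhN⟩ : N) x = 0 → x ≠ 0 →
          (B.restrict N) x x < 0 := fun x hx hx0 =>
        hLor (x : V) x.2 hx (fun h0 => hx0 (Subtype.ext h0))
      have h7 : (B.restrict N) (gd k) (gd k) = 0 := hlG k hk
      have h8 : (B.restrict N) (gd m) (gd m) = 0 := hlG m hm
      have h9 : (B.restrict N) (gd k) (gd m) = 0 := h1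
      exact null_dep (N := N) (B := B.restrict N) hsN h6 h7 h8 h9 h5
    have hSS : S = ∑ k, l k • ((gd k : A) * gd k) := by
      rw [hS, q3, hτ0, zero_smul, add_zero, zero_div, zero_smul, sub_zero]
    by_cases hex : ∃ k, l k ≠ 0
    · obtain ⟨k, hk⟩ := hex
      refine ⟨(gd k : V), (gd k).2, hlG k hk, 3 / (2 * c) * l k, mul_nonneg hc2.le (hl0 k), ?_⟩
      have hone : ∑ k, l k • (((gd k : V) : A) * (gd k : V)) =
          l k • (((gd k : V) : A) * (gd k : V)) := by
        refine sum_eq_single k (fun m _ hm => ?_) (fun h => absurd (mem_univ k) h)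
        have h1 : l m = 0 := by
          by_contra h2
          exact hm (huniq m k h2 hk)
        rw [h1, zero_smul]
      rw [hys, hsdef, hSS, hone, smul_smul, pow_two]
    · push Not at hex
      refine ⟨0, N.zero_mem, by simp, 0, le_rfl, ?_⟩
      rw [hys, hsdef, hSS, sum_eq_zero fun k _ => by rw [hex k, zero_smul], smul_zero, zero_smul]

end Pool.Agent.Lib.P26dde3
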