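import Mathlib
import Pool.Agent.Lib.P26dde3.One

/-!
# Several components
-/

namespace Pool.Agent.Lib.P26dde3

open Finset

variable {A : Type*} [CommRing A] [Algebra ℝ A]
  {V : Submodule ℝ A} {B : LinearMap.BilinForm ℝ V}

theorem multi (hs : B.IsSymm) (hn : B.Nondegenerate) [FiniteDimensional ℝ V]
    (L : A →ₗ[ℝ] ℝ) {ι : Type*} [Fintype ι]
    (u : ι → A) (k : ι → ℕ) (c : ι → ℝ) (hc : ∀ i, c i ≠ 0)
    (hd : ∀ i, ∀ v : V, L (u i * u i * (v : A) ^ (2 * k i)) = c i * B v v ^ k i)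
    (ho : ∀ i j, i ≠ j → ∀ v : V, L (u i * u j * (v : A) ^ (k i + k j)) = 0)
    {h : V} (hQ : B h h ≠ 0) {y : A} (s : ι → A) (hsn : ∀ i, s i ∈ V ^ k i)
    (hy : y = ∑ i, u i * s i)
    (hL : ∀ x : V, B h x = 0 → ∀ i m, m + 1 = k i → ∀ w ∈ V ^ m, L (y * x * (u i * w)) = 0) :
    L (y * y) = ∑ i, (DD (k i) * ((Module.finrank ℝ V + k i - 1).choose (k i) : ℝ)) /
      (c i * B h h ^ k i * PB (Module.finrank ℝ V) (k i)) *
        L (y * (u i * (h : A) ^ k i)) ^ 2 := by
  classical
  have hh0 : h ≠ 0 := by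
    rintro rfl
    exact hQ (by simp)
  have : Nontrivial V := ⟨h, 0, hh0⟩
  have hb : 1 ≤ Module.finrank ℝ V := Module.finrank_pos
  -- orthogonality
  have hoff : ∀ i j, i ≠ j → ∀ w ∈ V ^ (k i + k j), L (u i * u j * w) = 0 := by
    intro i j hij
    exact pol V (L ∘ₗ LinearMap.mulLeft ℝ (u i * u j)) _ fun v hv => ho i j hij ⟨v, hv⟩
  -- restriction to one component
  have hres : ∀ i, ∀ w ∈ V ^ k i, L (y * (u i * w)) = L (u i * u i * (s i * w)) := by
    intro i w hw
    rw [hy, sum_mul, map_sum, sum_eq_single i]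
    · congr 1
      ring
    · intro j _ hj
      have h1 := hoff j i hj (s j * w) (by
        rw [pow_add]
        exact Submodule.mul_mem_mul (hsn j) hw)
      have h2 : u j * s j * (u i * w) = u j * u i * (s j * w) := by ring
      rw [h2, h1]
    · intro hi
      exact absurd (mem_univ i) hi
  have h3 : L (y * y) = ∑ i, L (u i * u i * (s i * s i)) := by
    have h4 : L (y * y) = ∑ i, L (y * (u i * s i)) := by
      conv_lhs => rw [hy, mul_sum, map_sum, ← hy]
    rw [h4]
    exact sum_congr rfl fun i _ => hres i (s i) (hsn i)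
  rw [h3]
  refine sum_congr rfl fun i _ => ?_
  have h5 := one hs hn (L ∘ₗ LinearMap.mulLeft ℝ (u i * u i)) (c i) (k i) (fun v => hd i v) hQ
    (hsn i) (fun x hx m hm w hw => by
      rw [LinearMap.comp_apply, LinearMap.mulLeft_apply]
      have h6 : (x : A) * w ∈ V ^ k i := by
        rw [← hm, pow_succ']
        exact Submodule.mul_mem_mul x.2 hw
      have h7 := hres i _ h6
      have h8 : y * (u i * ((x : A) * w)) = (y * x) * (u i * w) := by ring
      rw [h8, hL x hx i m hm w hw] at h7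
      rw [mul_assoc (s i), ← h7])
  simp only [LinearMap.comp_apply, LinearMap.mulLeft_apply] at h5
  rw [hres i _ (Submodule.pow_mem_pow V h.2 (k i))]
  have p1 := PB_pos hb (k i)
  have p2 := pow_ne_zero (k i) hQ
  have p3 := hc i
  rw [div_mul_eq_mul_div, eq_div_iff (mul_ne_zero (mul_ne_zero p3 p2) p1.ne')]
  linear_combination h5

end Pool.Agent.Lib.P26dde3
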